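import Pool.Agent.Lib.MP_469a26_an.Defs

namespace DiskSphere

open Complex ComplexConjugate

theorem one_add_ne {p : ℂ × ℝ} (h : OnSphere p) (hp : p ≠ (0, -1)) : 1 + p.2 ≠ 0 := by
  intro h0
  apply hp
  have h2 : p.2 = -1 := by linarith
  have h1 : ‖p.1‖ ^ 2 = 0 := by
    unfold OnSphere at h
    rw [h2] at h
    linarith
  have : p.1 = 0 := by simpa using h1
  exact Prod.ext this h2

theorem stereo_eq_inv {p : ℂ × ℝ} (h : OnSphere p) : stereo p = (stereoInv p)⁻¹ := by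
  unfold OnSphere at h
  unfold stereo stereoInv
  by_cases h0 : p.1 = 0
  · simp [h0]
  · have hn : 0 < ‖p.1‖ ^ 2 := by positivity
    have h1 : (1 + p.2) ≠ 0 := by
      intro hh
      have : p.2 = -1 := by linarith
      rw [this] at h
      linarith
    have h2 : (1 - p.2) ≠ 0 := by
      intro hh
      have : p.2 = 1 := by linarith
      rw [this] at h
      linarith
    have h1' : (1 + (p.2 : ℂ)) ≠ 0 := by exact_mod_cast h1
    have h2' : (1 - (p.2 : ℂ)) ≠ 0 := by exact_mod_cast h2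
    have hc : conj p.1 ≠ 0 := by simpa using h0
    rw [inv_div, div_eq_div_iff h1' hc, mul_conj, normSq_eq_norm_sq]
    have : ‖p.1‖ ^ 2 = (1 - p.2) * (1 + p.2) := by linarith
    rw [this]
    push_cast
    ring

theorem invStereo_stereo {p : ℂ × ℝ} (h : OnSphere p) (hp : p ≠ (0, -1)) :
    invStereo (stereo p) = p := by
  have h1 := one_add_ne h hp
  have h1' : (1 + (p.2 : ℂ)) ≠ 0 := by exact_mod_cast h1
  unfold OnSphere at h
  have hn : ‖stereo p‖ ^ 2 = (1 - p.2) / (1 + p.2) := by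
    unfold stereo
    rw [norm_div, div_pow]
    have : ‖(1 + (p.2 : ℂ))‖ ^ 2 = (1 + p.2) ^ 2 := by
      have : (1 + (p.2 : ℂ)) = ((1 + p.2 : ℝ) : ℂ) := by push_cast; ring
      rw [this, norm_real, Real.norm_eq_abs, sq_abs]
    rw [this]
    have h3 : ‖p.1‖ ^ 2 = (1 - p.2) * (1 + p.2) := by linarith
    rw [h3]
    field_simp
  unfold invStereo
  have hnC : ((‖stereo p‖ : ℂ)) ^ 2 = (1 - p.2) / (1 + p.2) := by
    rw [← ofReal_pow, hn]; push_cast; ring
  rw [hn, hnC]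
  apply Prod.ext
  · simp only [stereo]
    have : 1 + (1 - (p.2 : ℂ)) / (1 + p.2) = 2 / (1 + p.2) := by field_simp; ring
    rw [this]
    field_simp
  · simp only
    have : 1 + (1 - p.2) / (1 + p.2) = 2 / (1 + p.2) := by field_simp; ring
    rw [this]
    field_simp
    ring

theorem invStereo_ne (w : ℂ) : invStereo w ≠ (0, -1) := by
  intro h
  have h2 : (1 - ‖w‖ ^ 2) / (1 + ‖w‖ ^ 2) = -1 := congrArg Prod.snd h
  have : (0 : ℝ) < 1 + ‖w‖ ^ 2 := by positivity
  rw [div_eq_iff this.ne'] at h2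
  linarith

theorem stereo_invStereo (w : ℂ) : stereo (invStereo w) = w := by
  unfold stereo invStereo
  have h1 : (0 : ℝ) < 1 + ‖w‖ ^ 2 := by positivity
  have h1' : (1 + (‖w‖ : ℂ) ^ 2) ≠ 0 := by exact_mod_cast h1.ne'
  simp only
  push_cast
  have : 1 + (1 - (‖w‖ : ℂ) ^ 2) / (1 + (‖w‖ : ℂ) ^ 2) = 2 / (1 + (‖w‖ : ℂ) ^ 2) := by
    field_simp; ring
  rw [this]
  field_simp

theorem stereo_south : stereo (0, -1) = 0 := by simp [stereo]

theorem continuous_invStereo : Continuous invStereo := by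
  unfold invStereo
  apply Continuous.prodMk
  · apply Continuous.div
    · fun_prop
    · fun_prop
    · intro w
      have h1 : (0 : ℝ) < 1 + ‖w‖ ^ 2 := by positivity
      exact_mod_cast h1.ne'
  · apply Continuous.div
    · fun_prop
    · fun_prop
    · intro w
      have h1 : (0 : ℝ) < 1 + ‖w‖ ^ 2 := by positivity
      exact h1.ne'

theorem sqrt_facts {R : ℝ} (hR : 0 < R) (hR1 : R ≤ 1) :
    0 ≤ Real.sqrt (1 - R ^ 2) ∧ Real.sqrt (1 - R ^ 2) < 1 ∧
      Real.sqrt (1 - R ^ 2) ^ 2 = 1 - R ^ 2 := by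
  have h : 0 ≤ 1 - R ^ 2 := by nlinarith
  refine ⟨Real.sqrt_nonneg _, ?_, Real.sq_sqrt h⟩
  rw [Real.sqrt_lt' one_pos]
  nlinarith

theorem rho_pos {R : ℝ} (hR : 0 < R) (hR1 : R ≤ 1) : 0 < rho R := by
  obtain ⟨_, h1, _⟩ := sqrt_facts hR hR1
  exact div_pos (by linarith) hR

theorem boundary_value {R : ℝ} (hR : 0 < R) (hR1 : R ≤ 1) {w : ℂ} (hw : ‖w‖ = 1) :
    invStereo ((rho R : ℂ) * w) = ((R : ℂ) * w, Real.sqrt (1 - R ^ 2)) := by
  obtain ⟨h0, h1, h2⟩ := sqrt_facts hR hR1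
  have hρ := rho_pos hR hR1
  set c := Real.sqrt (1 - R ^ 2) with hc
  have hn : ‖(rho R : ℂ) * w‖ = rho R := by
    rw [norm_mul, hw, mul_one, norm_real, Real.norm_eq_abs, abs_of_pos hρ]
  have hρ2 : rho R ^ 2 = (1 - c) / (1 + c) := by
    have hc1 : (1 + c) ≠ 0 := by positivity
    unfold rho
    rw [← hc, div_pow, div_eq_div_iff (by positivity) hc1]
    nlinarith
  have hc1 : (1 + c) ≠ 0 := by positivity
  have hA : 1 + rho R ^ 2 = 2 / (1 + c) := by rw [hρ2]; field_simp; ring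
  have hB : 1 - rho R ^ 2 = 2 * c / (1 + c) := by rw [hρ2]; field_simp; ring
  have hD : 2 * rho R / (1 + rho R ^ 2) = R := by
    rw [hA]
    unfold rho
    rw [← hc]
    field_simp
    nlinarith
  unfold invStereo
  rw [hn]
  apply Prod.ext
  · simp only
    have : (2 * ((rho R : ℂ) * w)) / (1 + (rho R : ℂ) ^ 2)
        = ((2 * rho R / (1 + rho R ^ 2) : ℝ) : ℂ) * w := by
      push_cast; ring
    rw [this, hD]
  · simp only
    rw [hA, hB]
    field_simp

end DiskSphere
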