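import Mathlib

namespace DiskSphere

open Complex

/-- A holomorphic function in an annulus which vanishes on the outer circle is zero. -/
theorem annulus_zero {δ : ℝ} (h0 : 0 < δ) (h1 : δ < 1) {H : ℂ → ℂ}
    (hc : ContinuousOn H {z | δ ≤ ‖z‖ ∧ ‖z‖ ≤ 1})
    (hd : ∀ z, δ < ‖z‖ → ‖z‖ < 1 → DifferentiableAt ℂ H z)
    (hz : ∀ z, ‖z‖ = 1 → H z = 0) : ∀ z, δ < ‖z‖ → ‖z‖ < 1 → H z = 0 := by
  intro z hz0 hz1
  set a : ℝ := Real.log δ with ha
  have ha0 : a < 0 := Real.log_neg h0 h1
  set φ : ℂ → ℂ := fun w => exp ((a : ℂ) * (1 - w)) with hφ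
  have hn : ∀ w, ‖φ w‖ = Real.exp (a * (1 - w.re)) := by
    intro w
    simp only [hφ, norm_exp]
    congr 1
    simp [mul_re]
  have hlow : ∀ w : ℂ, 0 ≤ w.re → δ ≤ ‖φ w‖ := by
    intro w hw
    rw [hn, ← Real.exp_log h0]
    apply Real.exp_le_exp.2
    nlinarith
  have hup : ∀ w : ℂ, w.re ≤ 1 → ‖φ w‖ ≤ 1 := by
    intro w hw
    rw [hn]
    apply Real.exp_le_one_iff.2
    nlinarith
  have hlow' : ∀ w : ℂ, 0 < w.re → δ < ‖φ w‖ := by
    intro w hw
    rw [hn, ← Real.exp_log h0]
    apply Real.exp_lt_exp.2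
    nlinarith
  have hup' : ∀ w : ℂ, w.re < 1 → ‖φ w‖ < 1 := by
    intro w hw
    rw [hn]
    have h2 : a * (1 - w.re) < 0 := by nlinarith
    calc Real.exp (a * (1 - w.re)) < Real.exp 0 := Real.exp_lt_exp.2 h2
      _ = 1 := Real.exp_zero
  have hφc : Continuous φ := by fun_prop
  have hφd : Differentiable ℂ φ := by fun_prop
  have hcl : closure (HadamardThreeLines.verticalStrip 0 1) ⊆
      HadamardThreeLines.verticalClosedStrip 0 1 := by
    apply closure_minimal
    · intro w hw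
      exact ⟨hw.1.le, hw.2.le⟩
    · exact isClosed_Icc.preimage continuous_re
  have hmaps : Set.MapsTo φ (HadamardThreeLines.verticalClosedStrip 0 1)
      {z | δ ≤ ‖z‖ ∧ ‖z‖ ≤ 1} := by
    intro w hw
    exact ⟨hlow w hw.1, hup w hw.2⟩
  have hcont : ContinuousOn (fun w => H (φ w)) (HadamardThreeLines.verticalClosedStrip 0 1) :=
    hc.comp hφc.continuousOn hmaps
  have hdc : DiffContOnCl ℂ (fun w => H (φ w)) (HadamardThreeLines.verticalStrip 0 1) := by
    refine ⟨?_, hcont.mono hcl⟩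
    intro w hw
    exact ((hd (φ w) (hlow' w hw.1) (hup' w hw.2)).comp w (hφd w)).differentiableWithinAt
  have hcomp : IsCompact {z : ℂ | δ ≤ ‖z‖ ∧ ‖z‖ ≤ 1} := by
    apply (isCompact_closedBall (0 : ℂ) 1).of_isClosed_subset
    · exact (isClosed_le continuous_const continuous_norm).inter
        (isClosed_le continuous_norm continuous_const)
    · intro z hz
      simpa using hz.2
  obtain ⟨C, hC⟩ := (hcomp.image_of_continuousOn hc.norm).bddAbove
  have hC' : ∀ w ∈ HadamardThreeLines.verticalClosedStrip 0 1, ‖H (φ w)‖ ≤ C := by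
    intro w hw
    exact hC ⟨φ w, hmaps hw, rfl⟩
  have hB : BddAbove ((norm ∘ fun w => H (φ w)) '' HadamardThreeLines.verticalClosedStrip 0 1) := by
    refine ⟨C, ?_⟩
    rintro _ ⟨w, hw, rfl⟩
    exact hC' w hw
  -- a preimage of `z`
  have hz00 : z ≠ 0 := by
    rintro rfl
    simp at hz0
    linarith
  set w : ℂ := 1 - log z / a with hw
  have hφw : φ w = z := by
    have haC : (a : ℂ) ≠ 0 := by exact_mod_cast ha0.ne
    have : (a : ℂ) * (1 - w) = log z := by
      rw [hw]; field_simp; ring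
    simp only [hφ, this]
    exact exp_log hz00
  have hwre : ‖z‖ = Real.exp (a * (1 - w.re)) := by rw [← hφw]; rw [hφw, ← hn, hφw]
  have hlz : Real.log ‖z‖ = a * (1 - w.re) := by rw [hwre, Real.log_exp]
  have hw0 : 0 < w.re := by
    have : a < Real.log ‖z‖ := Real.log_lt_log h0 hz0
    by_contra hcon
    push Not at hcon
    nlinarith
  have hw1 : w.re ≤ 1 := by
    have : Real.log ‖z‖ < 0 := Real.log_neg (h0.trans hz0) hz1
    by_contra hcon
    push Not at hcon
    nlinarith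
  have key := HadamardThreeLines.norm_le_interp_of_mem_verticalClosedStrip₀₁'
    (fun w => H (φ w)) (z := w) (a := C) (b := 0) ⟨hw0.le, hw1⟩ hdc hB
    (by
      intro x hx
      have hx' : x.re = 0 := hx
      exact hC' x ⟨by rw [hx'], by rw [hx']; exact zero_le_one⟩)
    (by
      intro x hx
      have hx' : x.re = 1 := hx
      have : ‖φ x‖ = 1 := by rw [hn, hx']; simp
      simp [hz _ this])
  rw [Real.zero_rpow hw0.ne', mul_zero] at key
  have : H (φ w) = 0 := by simpa using key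
  rwa [hφw] at this

end DiskSphere
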