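import Pool.Agent.Lib.MP_469a26_an.Annulus
import Pool.Agent.Lib.MP_469a26_an.Alg

namespace DiskSphere

open Complex ComplexConjugate Filter Topology

/-- A holomorphic map of the disk to the sphere with the boundary values of `ρ z^k`. -/
theorem core {ρ : ℝ} (hρ : 0 < ρ) (k : ℤ) (v W : ℂ → ℂ × ℝ)
    (hS : ∀ z ∈ Metric.closedBall (0 : ℂ) 1, OnSphere (v z))
    (hc : ContinuousOn v (Metric.closedBall 0 1)) (hv : HolomorphicMap v)
    (hW : Continuous W) (hW' : ∀ z, z ≠ 0 → W z = invStereo ((ρ : ℂ) * z ^ k))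
    (hb : ∀ z, ‖z‖ = 1 → v z = W z) : ∀ z ∈ Metric.closedBall (0 : ℂ) 1, v z = W z := by
  classical
  have hnz : ∀ z : ℂ, ‖z‖ = 1 → z ≠ 0 := by
    rintro z hz rfl
    simp at hz
  -- no south pole near the circle
  have hb1 : ∀ z, ‖z‖ = 1 → v z ≠ (0, -1) := by
    intro z hz
    rw [hb z hz, hW' z (hnz z hz)]
    exact invStereo_ne _
  obtain ⟨δ, hδ0, hδ1, hδ⟩ : ∃ δ : ℝ, 0 < δ ∧ δ < 1 ∧
      ∀ z : ℂ, δ ≤ ‖z‖ → ‖z‖ ≤ 1 → v z ≠ (0, -1) := by
    set K : Set ℂ := Metric.closedBall (0 : ℂ) 1 ∩ v ⁻¹' {((0 : ℂ), (-1 : ℝ))} with hK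
    have hKc : IsCompact K :=
      (isCompact_closedBall (0 : ℂ) 1).of_isClosed_subset
        (hc.preimage_isClosed_of_isClosed Metric.isClosed_closedBall isClosed_singleton)
        Set.inter_subset_left
    rcases K.eq_empty_or_nonempty with hE | hN
    · refine ⟨1 / 2, by norm_num, by norm_num, ?_⟩
      intro z _ hz h
      have : z ∈ K := ⟨by simpa using hz, h⟩
      rw [hE] at this
      exact this
    · obtain ⟨x, hx, hmax⟩ := hKc.exists_isMaxOn hN continuous_norm.continuousOn
      have hx1 : ‖x‖ ≤ 1 := by simpa using hx.1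
      have hx2 : ‖x‖ < 1 := by
        rcases hx1.lt_or_eq with h | h
        · exact h
        · exact absurd hx.2 (hb1 x h)
      refine ⟨(‖x‖ + 1) / 2, by have := norm_nonneg x; linarith, by linarith, ?_⟩
      intro z hz1 hz2 h
      have hzK : z ∈ K := ⟨by simpa using hz2, h⟩
      have : ‖z‖ ≤ ‖x‖ := hmax hzK
      linarith
  set H : ℂ → ℂ := fun z => stereo (v z) - (ρ : ℂ) * z ^ k with hH
  have hball : ∀ z : ℂ, ‖z‖ < 1 → z ∈ Metric.ball (0 : ℂ) 1 := by
    intro z hz; simpa using hz
  -- continuity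
  have hcont : ContinuousOn H {z | δ ≤ ‖z‖ ∧ ‖z‖ ≤ 1} := by
    have hsub : {z : ℂ | δ ≤ ‖z‖ ∧ ‖z‖ ≤ 1} ⊆ Metric.closedBall (0 : ℂ) 1 := by
      intro z hz; simpa using hz.2
    have hc2 := hc.mono hsub
    apply ContinuousOn.sub
    · unfold stereo
      apply ContinuousOn.div
      · exact continuous_fst.comp_continuousOn hc2
      · exact continuousOn_const.add
          (continuous_ofReal.comp_continuousOn (continuous_snd.comp_continuousOn hc2))
      · intro z hz
        have := one_add_ne (hS z (hsub hz)) (hδ z hz.1 hz.2)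
        exact_mod_cast this
    · apply ContinuousOn.mul continuousOn_const
      intro z hz
      have hz0 : z ≠ 0 := by
        rintro rfl
        have : δ ≤ 0 := by simpa using hz.1
        linarith
      exact (continuousAt_zpow₀ z k (Or.inl hz0)).continuousWithinAt
  -- relation of the two charts near an interior point
  have hrel : ∀ z : ℂ, ‖z‖ < 1 →
      (fun x => stereo (v x)) =ᶠ[𝓝 z] fun x => (stereoInv (v x))⁻¹ := by
    intro z hz
    filter_upwards [Metric.isOpen_ball.mem_nhds (hball z hz)] with x hx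
    exact stereo_eq_inv (hS x (Metric.ball_subset_closedBall hx))
  have hdiff : ∀ z, δ < ‖z‖ → ‖z‖ < 1 → DifferentiableAt ℂ H z := by
    intro z hz1 hz2
    have hz0 : z ≠ 0 := by
      rintro rfl
      simp at hz1
      linarith
    apply DifferentiableAt.sub
    · rcases hv z (hball z hz2) with h | h
      · exact h.2.differentiableAt
      · have h3 : stereoInv (v z) ≠ 0 := by
          intro h4
          have hs := hS z (by simpa using hz2.le)
          have h5 := stereo_eq_inv hs
          rw [h4, inv_zero] at h5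
          have h6 := invStereo_stereo hs (hδ z hz1.le hz2.le)
          rw [h5] at h6
          apply h.1
          rw [← h6]
          simp [invStereo]
        exact (h.2.differentiableAt.inv h3).congr_of_eventuallyEq (hrel z hz2)
    · exact (differentiableAt_zpow.2 (Or.inl hz0)).const_mul _
  have hzero : ∀ z, ‖z‖ = 1 → H z = 0 := by
    intro z hz
    simp only [hH]
    rw [hb z hz, hW' z (hnz z hz), stereo_invStereo, sub_self]
  have hann := annulus_zero hδ0 hδ1 hcont hdiff hzero
  -- meromorphic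
  have hmer : MeromorphicOn H (Metric.ball (0 : ℂ) 1) := by
    intro z hz
    have hz' : ‖z‖ < 1 := by simpa using hz
    have h1 : MeromorphicAt (fun x => stereo (v x)) z := by
      rcases hv z hz with h | h
      · exact h.2.meromorphicAt
      · exact (h.2.meromorphicAt.inv).congr ((hrel z hz').symm.filter_mono nhdsWithin_le_nhds)
    have h2 : MeromorphicAt (fun x : ℂ => (ρ : ℂ) * x ^ k) z := by
      have := (MeromorphicAt.id z).zpow k
      exact (MeromorphicAt.const (ρ : ℂ) z).mul this
    exact h1.sub h2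
  have hpre : IsPreconnected (Metric.ball (0 : ℂ) 1) := (convex_ball (0 : ℂ) 1).isPreconnected
  set z1 : ℂ := (((δ + 1) / 2 : ℝ) : ℂ) with hz1
  have hz1n : ‖z1‖ = (δ + 1) / 2 := by
    rw [hz1, norm_real, Real.norm_eq_abs, abs_of_pos (by linarith)]
  have hz1top : meromorphicOrderAt H z1 = ⊤ := by
    rw [meromorphicOrderAt_eq_top_iff]
    apply Filter.Eventually.filter_mono nhdsWithin_le_nhds
    have hopen : IsOpen {z : ℂ | δ < ‖z‖ ∧ ‖z‖ < 1} :=
      (isOpen_lt continuous_const continuous_norm).inter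
        (isOpen_lt continuous_norm continuous_const)
    filter_upwards [hopen.mem_nhds (show z1 ∈ _ from ⟨by rw [hz1n]; linarith, by rw [hz1n]; linarith⟩)]
      with z hz
    exact hann z hz.1 hz.2
  have htop : ∀ z ∈ Metric.ball (0 : ℂ) 1, meromorphicOrderAt H z = ⊤ := by
    intro z hz
    by_contra hne
    exact hmer.meromorphicOrderAt_ne_top_of_isPreconnected hpre hz
      (hball z1 (by rw [hz1n]; linarith)) hne hz1top
  intro z hz
  have hz' : ‖z‖ ≤ 1 := by simpa using hz
  rcases hz'.lt_or_eq with hlt | heq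
  · have hzb := hball z hlt
    have hev := meromorphicOrderAt_eq_top_iff.1 (htop z hzb)
    have hne0 : ∀ᶠ x in 𝓝[≠] z, x ≠ 0 := by
      by_cases h0 : z = 0
      · rw [h0]; exact self_mem_nhdsWithin
      · exact Filter.Eventually.filter_mono nhdsWithin_le_nhds
          (isOpen_ne.mem_nhds h0)
    have hbe : ∀ᶠ x in 𝓝[≠] z, x ∈ Metric.ball (0 : ℂ) 1 :=
      Filter.Eventually.filter_mono nhdsWithin_le_nhds (Metric.isOpen_ball.mem_nhds hzb)
    have heqe : ∀ᶠ x in 𝓝[≠] z, v x = W x := by
      filter_upwards [hev, hne0, hbe] with x hx hx0 hxb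
      have h1 : stereo (v x) = (ρ : ℂ) * x ^ k := by
        have : stereo (v x) - (ρ : ℂ) * x ^ k = 0 := hx
        exact sub_eq_zero.1 this
      have h2 : v x ≠ (0, -1) := by
        intro h3
        rw [h3, stereo_south] at h1
        have : (ρ : ℂ) * x ^ k ≠ 0 :=
          mul_ne_zero (by exact_mod_cast hρ.ne') (zpow_ne_zero _ hx0)
        exact this h1.symm
      have h4 := invStereo_stereo (hS x (Metric.ball_subset_closedBall hxb)) h2
      rw [← h4, h1, hW' x hx0]
    have hvt : Tendsto v (𝓝[≠] z) (𝓝 (v z)) :=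
      ((hc.continuousAt (Metric.closedBall_mem_nhds_of_mem hzb)).tendsto).mono_left
        nhdsWithin_le_nhds
    have hWt : Tendsto W (𝓝[≠] z) (𝓝 (W z)) := (hW.tendsto z).mono_left nhdsWithin_le_nhds
    exact tendsto_nhds_unique_of_eventuallyEq hvt hWt heqe
  · exact hb z heq

end DiskSphere
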