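import Mathlib

/-!
# Definitions for MP_469a26_an

The sphere is the unit sphere of `ℂ × ℝ` (that is, of `ℝ³`); a point is written `p = (p.1, p.2)`.
-/

namespace DiskSphere

open Complex ComplexConjugate

/-- The point `p` of `ℂ × ℝ` lies on the unit sphere. -/
def OnSphere (p : ℂ × ℝ) : Prop := ‖p.1‖ ^ 2 + p.2 ^ 2 = 1

/-- Stereographic projection of the sphere without its south pole `(0, -1)` to the plane. -/
noncomputable def stereo (p : ℂ × ℝ) : ℂ := p.1 / (1 + p.2)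

/-- The other chart, `1 / stereo`, of the sphere without its north pole `(0, 1)`. -/
noncomputable def stereoInv (p : ℂ × ℝ) : ℂ := conj p.1 / (1 - p.2)

/-- Inverse stereographic projection. -/
noncomputable def invStereo (w : ℂ) : ℂ × ℝ :=
  (2 * w / (1 + (‖w‖ : ℂ) ^ 2), (1 - ‖w‖ ^ 2) / (1 + ‖w‖ ^ 2))

/-- `u` is holomorphic on the open unit disk as a map to the sphere (the Riemann sphere): near
each point of the disk it is holomorphic in one of the two charts. -/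
def HolomorphicMap (u : ℂ → ℂ × ℝ) : Prop :=
  ∀ z ∈ Metric.ball (0 : ℂ) 1,
    (u z ≠ (0, -1) ∧ AnalyticAt ℂ (fun x => stereo (u x)) z) ∨
      (u z ≠ (0, 1) ∧ AnalyticAt ℂ (fun x => stereoInv (u x)) z)

/-- `u` is antiholomorphic on the open unit disk as a map to the sphere: its mirror image
`(conj u₁, u₂)` is holomorphic. -/
def AntiholomorphicMap (u : ℂ → ℂ × ℝ) : Prop :=
  HolomorphicMap (fun z => (conj (u z).1, (u z).2))

/-- The boundary datum `g_{R,m}` at `e^{iθ}`. -/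
noncomputable def datum (R : ℝ) (m : ℕ) (θ : ℝ) : ℂ × ℝ :=
  ((R : ℂ) * exp (((m * θ : ℝ) : ℂ) * I), Real.sqrt (1 - R ^ 2))

/-- `ρ = (1 - √(1 - R²)) / R`. -/
noncomputable def rho (R : ℝ) : ℝ := (1 - Real.sqrt (1 - R ^ 2)) / R

/-- `u_m^+ (z) = π⁻¹ (ρ z^m)`. -/
noncomputable def uPlus (R : ℝ) (m : ℕ) (z : ℂ) : ℂ × ℝ := invStereo ((rho R : ℂ) * z ^ m)

/-- `u_m^- (z) = π⁻¹ (ρ / (conj z)^m)` for `z ≠ 0`, and the south pole `(0, -1)` for `z = 0`. -/
noncomputable def uMinus (R : ℝ) (m : ℕ) (z : ℂ) : ℂ × ℝ :=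
  if z = 0 then (0, -1) else invStereo ((rho R : ℂ) / (conj z) ^ m)

end DiskSphere
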