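import Mathlib

namespace DiskHarmonic

open Complex ComplexConjugate Metric

/-- Nonnegative real part on the circle and value `0` at the centre. -/
theorem re_zero_of_nonneg {G : ℂ → ℂ} (hG : DiffContOnCl ℂ G (ball 0 1)) (h0 : G 0 = 0)
    (hp : ∀ z, ‖z‖ = 1 → 0 ≤ (G z).re) : ∀ z, ‖z‖ = 1 → (G z).re = 0 := by
  have hav : Real.circleAverage G 0 1 = 0 := by
    have := DiffContOnCl.circleAverage (f := G) (c := 0) (R := 1) (by simpa using hG)
    rw [this, h0]
  have hn : ∀ θ : ℝ, ‖circleMap 0 1 θ‖ = 1 := by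
    intro θ; simp
  have hcl : ∀ θ : ℝ, circleMap 0 1 θ ∈ closedBall (0 : ℂ) 1 := by
    intro θ; simp
  have hGc : ContinuousOn G (closedBall 0 1) := by
    have := hG.continuousOn
    rwa [closure_ball (0 : ℂ) one_ne_zero] at this
  have hcont : Continuous fun θ : ℝ => G (circleMap 0 1 θ) :=
    hGc.comp_continuous (continuous_circleMap 0 1) hcl
  have hcontr : Continuous fun θ : ℝ => (G (circleMap 0 1 θ)).re :=
    continuous_re.comp hcont
  have hint : ∫ θ in (0 : ℝ)..(2 * Real.pi), G (circleMap 0 1 θ) = 0 := by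
    rw [Real.circleAverage_def] at hav
    rcases smul_eq_zero.1 hav with h | h
    · exfalso
      have : (2 * Real.pi)⁻¹ ≠ 0 := by positivity
      exact this h
    · exact h
  have hintr : ∫ θ in (0 : ℝ)..(2 * Real.pi), (G (circleMap 0 1 θ)).re = 0 := by
    have h1 := ContinuousLinearMap.intervalIntegral_comp_comm (μ := MeasureTheory.volume)
      (a := 0) (b := 2 * Real.pi) reCLM (hcont.intervalIntegrable 0 (2 * Real.pi))
    simp only [reCLM_apply] at h1
    rw [h1, hint]
    simp
  intro z hz
  have hzs : z ∈ circleMap (0 : ℂ) 1 '' Set.Ioc 0 (2 * Real.pi) := by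
    rw [image_circleMap_Ioc]
    simpa using hz
  obtain ⟨θ, hθ, rfl⟩ := hzs
  by_contra hne
  have hpos : 0 < (G (circleMap 0 1 θ)).re := lt_of_le_of_ne (hp _ hz) (Ne.symm hne)
  have := intervalIntegral.integral_pos (a := 0) (b := 2 * Real.pi) (by positivity)
    hcontr.continuousOn (fun x _ => hp _ (hn x)) ⟨θ, ⟨hθ.1.le, hθ.2⟩, hpos⟩
  linarith

/-- The complex analytic core. -/
theorem phi_zero {φ : ℂ → ℂ} (hφ : DiffContOnCl ℂ φ (ball 0 1)) {ω : ℂ} (hω : ω ≠ 0) {a : ℝ}
    {c : ℂ} (hac : a ≠ 0 ∨ c ≠ 0)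
    (h : ∀ z : ℂ, ‖z‖ = 1 → 0 ≤ (a + (c * z).re) * (ω * (z ^ 2 * φ z)).re) :
    ∀ z ∈ closedBall (0 : ℂ) 1, φ z = 0 := by
  set p : ℂ → ℂ := fun z => a * z + c / 2 * z ^ 2 + conj c / 2 with hp
  set Q : ℂ → ℂ := fun z => ω * (z * p z) * φ z with hQ
  have hpd : Differentiable ℂ p := by
    intro z; fun_prop
  have hQd : DiffContOnCl ℂ Q (ball 0 1) := by
    have h1 : Differentiable ℂ fun z => ω * (z * p z) := by
      intro z; fun_prop
    exact h1.diffContOnCl.smul hφ
  have hQ0 : Q 0 = 0 := by simp [hQ]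
  have hQre : ∀ z : ℂ, ‖z‖ = 1 →
      (Q z).re = (a + (c * z).re) * (ω * (z ^ 2 * φ z)).re := by
    intro z hz
    have hzz : z * conj z = 1 := by rw [mul_conj, normSq_eq_norm_sq, hz]; simp
    have hs : z * p z = (((a + (c * z).re : ℝ)) : ℂ) * z ^ 2 := by
      have hre : (((c * z).re : ℝ) : ℂ) = (c * z + conj c * conj z) / 2 := by
        rw [re_eq_add_conj, map_mul]
      push_cast
      rw [hre]
      simp only [hp]
      have : z * (conj c / 2) = conj c / 2 * (z * conj z) * z := by rw [hzz]; ring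
      linear_combination this
    have : Q z = (((a + (c * z).re : ℝ)) : ℂ) * (ω * (z ^ 2 * φ z)) := by
      simp only [hQ]
      rw [hs]
      ring
    rw [this, re_ofReal_mul]
  have hr := re_zero_of_nonneg hQd hQ0 (fun z hz => by rw [hQre z hz]; exact h z hz)
  -- `Q` is zero on the circle
  have hQ2 : ∀ z : ℂ, ‖z‖ = 1 → Q z = 0 := by
    have hG : DiffContOnCl ℂ (fun z => - (Q z * Q z)) (ball 0 1) := (hQd.smul hQd).neg
    have hre : ∀ z : ℂ, ‖z‖ = 1 → (-(Q z * Q z)).re = (Q z).im ^ 2 := by
      intro z hz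
      rw [neg_re, mul_re, hr z hz]
      ring
    have h2 := re_zero_of_nonneg hG (by simp [hQ0]) (fun z hz => by
      rw [hre z hz]; positivity)
    intro z hz
    have h3 := h2 z hz
    rw [hre z hz] at h3
    have h4 : (Q z).im = 0 := by simpa using h3
    exact Complex.ext (by simpa using hr z hz) (by simpa using h4)
  have hQb : Set.EqOn Q (fun _ => 0) (closure (ball (0 : ℂ) 1)) := by
    apply Complex.eqOn_closure_of_eqOn_frontier isBounded_ball hQd diffContOnCl_const
    intro z hz
    rw [frontier_ball (0 : ℂ) one_ne_zero] at hz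
    exact hQ2 z (by simpa using hz)
  -- conclusion
  have hφc : ContinuousOn φ (closedBall 0 1) := by
    have := hφ.continuousOn
    rwa [closure_ball (0 : ℂ) one_ne_zero] at this
  have hball : ∀ z ∈ ball (0 : ℂ) 1, φ z = 0 := by
    intro z hz
    by_contra hne
    have hcz : ContinuousAt φ z := hφc.continuousAt (closedBall_mem_nhds_of_mem hz)
    have hev : ∀ᶠ x in nhds z, x * p x = 0 := by
      filter_upwards [hcz.eventually_ne hne, isOpen_ball.mem_nhds hz] with x hx hxb
      have h1 : Q x = 0 := hQb (subset_closure hxb)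
      simp only [hQ] at h1
      rcases mul_eq_zero.1 h1 with h2 | h2
      · rcases mul_eq_zero.1 h2 with h3 | h3
        · exact absurd h3 hω
        · exact h3
      · exact absurd h2 hx
    have hAn : AnalyticOnNhd ℂ (fun x : ℂ => x * p x) Set.univ := by
      intro x _
      have : Differentiable ℂ fun x : ℂ => x * p x := by intro z; fun_prop
      exact this.analyticAt x
    have hall := hAn.eq_of_eventuallyEq (g := fun _ => 0) (fun x _ => analyticAt_const) hev
    have e1 : (1 : ℂ) * p 1 = 0 := congrFun hall 1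
    have e2 : (-1 : ℂ) * p (-1) = 0 := congrFun hall (-1)
    have e3 : I * p I = 0 := congrFun hall I
    simp only [hp] at e1 e2 e3
    have f3 : (a : ℂ) * I + c / 2 * I ^ 2 + conj c / 2 = 0 := by
      rcases mul_eq_zero.1 e3 with h | h
      · exact absurd h I_ne_zero
      · exact h
    have r1 := congrArg re e1
    have r2 := congrArg re e2
    have r3 := congrArg im f3
    simp at r1 r2 r3
    have ha : a = 0 := by linarith
    have hcre : c.re = 0 := by linarith
    have hcim : c.im = 0 := by linarith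
    rcases hac with h | h
    · exact h ha
    · exact h (Complex.ext hcre hcim)
  intro z hz
  have hzc : z ∈ closure (ball (0 : ℂ) 1) := by
    rwa [closure_ball (0 : ℂ) one_ne_zero]
  have : Set.EqOn φ (fun _ => 0) (closure (ball (0 : ℂ) 1)) := by
    apply Set.EqOn.of_subset_closure (s := ball (0 : ℂ) 1) hball
    · exact hφ.continuousOn
    · exact continuousOn_const
    · exact subset_closure
    · exact le_rfl
  exact this hzc

end DiskHarmonic
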