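import Mathlib

/-!
# Definitions for MP_469a26_an.FourSignChanges
-/

namespace DiskHarmonic

open Complex

variable {E : Type*} [NormedAddCommGroup E] [InnerProductSpace ℝ E]

/-- The partial derivative of `u` in the direction of the real axis. -/
noncomputable def ux (u : ℂ → E) (z : ℂ) : E := fderiv ℝ u z 1

/-- The partial derivative of `u` in the direction of the imaginary axis. -/
noncomputable def uy (u : ℂ → E) (z : ℂ) : E := fderiv ℝ u z I

/-- The Laplacian of `u`. -/
noncomputable def lap (u : ℂ → E) (z : ℂ) : E := fderiv ℝ (ux u) z 1 + fderiv ℝ (uy u) z I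

/-- The radial derivative of `u` at a point `z` of the unit circle. -/
noncomputable def dr (u : ℂ → E) (z : ℂ) : E := fderiv ℝ u z z

/-- The derivative of `u` by the angle at a point `z` of the unit circle. -/
noncomputable def dth (u : ℂ → E) (z : ℂ) : E := fderiv ℝ u z (I * z)

/-- `u` is a harmonic map of the disk to the unit sphere of `E`, of class `C²` up to the
boundary. -/
def HarmonicToSphere (u : ℂ → E) : Prop :=
  (∀ z ∈ Metric.closedBall (0 : ℂ) 1, ContDiffAt ℝ 2 u z) ∧
    (∀ z ∈ Metric.closedBall (0 : ℂ) 1, ‖u z‖ = 1) ∧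
    ∀ z ∈ Metric.ball (0 : ℂ) 1, lap u z + (‖ux u z‖ ^ 2 + ‖uy u z‖ ^ 2) • u z = 0

end DiskHarmonic
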