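import Pool.Agent.Lib.MP_469a26_an.HDefs
import Pool.Agent.Lib.MP_469a26_an.HCx

namespace DiskHarmonic

open Complex Metric

variable {E : Type*} [NormedAddCommGroup E] [InnerProductSpace ℝ E]

/-- Four times the Hopf differential. -/
noncomputable def Phi (u : ℂ → E) (z : ℂ) : ℂ :=
  ((inner ℝ (ux u z) (ux u z) - inner ℝ (uy u z) (uy u z) : ℝ) : ℂ)
    - 2 * I * ((inner ℝ (ux u z) (uy u z) : ℝ) : ℂ)

theorem contDiffAt_ux {u : ℂ → E} {z : ℂ} (h : ContDiffAt ℝ 2 u z) : ContDiffAt ℝ 1 (ux u) z :=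
  (h.fderiv_right (m := 1) (by norm_num)).clm_apply contDiffAt_const

theorem contDiffAt_uy {u : ℂ → E} {z : ℂ} (h : ContDiffAt ℝ 2 u z) : ContDiffAt ℝ 1 (uy u) z :=
  (h.fderiv_right (m := 1) (by norm_num)).clm_apply contDiffAt_const

theorem fderiv_dir {u : ℂ → E} {z : ℂ} (h : ContDiffAt ℝ 2 u z) (v w : ℂ) :
    fderiv ℝ (fun x => fderiv ℝ u x v) z w = fderiv ℝ (fderiv ℝ u) z w v := by
  have hd : DifferentiableAt ℝ (fderiv ℝ u) z :=
    (h.fderiv_right (m := 1) (by norm_num)).differentiableAt (by norm_num)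
  have := (hd.hasFDerivAt.clm_apply (hasFDerivAt_const v z)).fderiv
  rw [this]
  simp

theorem symm {u : ℂ → E} {z : ℂ} (h : ContDiffAt ℝ 2 u z) :
    fderiv ℝ (ux u) z I = fderiv ℝ (uy u) z 1 := by
  have hs : IsSymmSndFDerivAt ℝ u z := h.isSymmSndFDerivAt (by simp)
  have h1 := fderiv_dir h 1 I
  have h2 := fderiv_dir h I 1
  unfold ux uy
  rw [h1, h2]
  exact hs I 1

theorem inner_zero {u : ℂ → E} {z : ℂ} (hd : DifferentiableAt ℝ u z)
    (h1 : ∀ᶠ x in nhds z, ‖u x‖ = 1) (v : ℂ) : inner ℝ (u z) (fderiv ℝ u z v) = 0 := by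
  have hc : (fun x => inner ℝ (u x) (u x)) =ᶠ[nhds z] fun _ => (1 : ℝ) := by
    filter_upwards [h1] with x hx
    rw [real_inner_self_eq_norm_sq, hx]
    norm_num
  have h2 := (hd.hasFDerivAt.inner ℝ hd.hasFDerivAt).fderiv
  rw [hc.fderiv_eq] at h2
  have h3 := congrArg (fun L => L v) h2
  simp [fderivInnerCLM_apply] at h3
  have h4 : inner ℝ (fderiv ℝ u z v) (u z) = inner ℝ (u z) (fderiv ℝ u z v) :=
    real_inner_comm _ _
  linarith

theorem diff_Phi {u : ℂ → E} {z : ℂ} (h : ContDiffAt ℝ 2 u z)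
    (h1 : ∀ᶠ x in nhds z, ‖u x‖ = 1)
    (hl : lap u z + (‖ux u z‖ ^ 2 + ‖uy u z‖ ^ 2) • u z = 0) :
    DifferentiableAt ℂ (Phi u) z := by
  have hA : HasFDerivAt (ux u) (fderiv ℝ (ux u) z) z :=
    ((contDiffAt_ux h).differentiableAt (by norm_num)).hasFDerivAt
  have hB : HasFDerivAt (uy u) (fderiv ℝ (uy u) z) z :=
    ((contDiffAt_uy h).differentiableAt (by norm_num)).hasFDerivAt
  have hF := (hA.inner ℝ hA).sub (hB.inner ℝ hB)
  have hG := hA.inner ℝ hB
  have hFc := (ofRealCLM.hasFDerivAt (x := inner ℝ (ux u z) (ux u z) - inner ℝ (uy u z) (uy u z))).comp z hF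
  have hGc := (ofRealCLM.hasFDerivAt (x := inner ℝ (ux u z) (uy u z))).comp z hG
  have hP : HasFDerivAt (Phi u) _ z := hFc.sub (hGc.const_mul (2 * I))
  rw [differentiableAt_complex_iff_differentiableAt_real]
  refine ⟨hP.differentiableAt, ?_⟩
  rw [hP.fderiv]
  have hdu : DifferentiableAt ℝ u z := h.differentiableAt (by norm_num)
  have hx0 : inner ℝ (u z) (ux u z) = 0 := inner_zero hdu h1 1
  have hy0 : inner ℝ (u z) (uy u z) = 0 := inner_zero hdu h1 I
  have hsym := symm h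
  have hlA : inner ℝ (lap u z) (ux u z) = 0 := by
    have := congrArg (fun v => inner ℝ v (ux u z)) hl
    simp only [inner_add_left, inner_smul_left, inner_zero_left, hx0, mul_zero, add_zero] at this
    exact this
  have hlB : inner ℝ (lap u z) (uy u z) = 0 := by
    have := congrArg (fun v => inner ℝ v (uy u z)) hl
    simp only [inner_add_left, inner_smul_left, inner_zero_left, hy0, mul_zero, add_zero] at this
    exact this
  unfold lap at hlA hlB
  rw [inner_add_left] at hlA hlB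
  set A := ux u z
  set B := uy u z
  set a1 := fderiv ℝ (ux u) z 1
  set b1 := fderiv ℝ (uy u) z 1
  set bI := fderiv ℝ (uy u) z I
  have c1 : inner ℝ A a1 = inner ℝ a1 A := real_inner_comm _ _
  have c2 : inner ℝ B a1 = inner ℝ a1 B := real_inner_comm _ _
  have c3 : inner ℝ A b1 = inner ℝ b1 A := real_inner_comm _ _
  have c4 : inner ℝ B b1 = inner ℝ b1 B := real_inner_comm _ _
  have c5 : inner ℝ A bI = inner ℝ bI A := real_inner_comm _ _
  have c6 : inner ℝ B bI = inner ℝ bI B := real_inner_comm _ _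
  apply Complex.ext
  · simp [fderivInnerCLM_apply, hsym, c3]
    linarith
  · simp [fderivInnerCLM_apply, hsym, c3]
    linarith

theorem boundary {u : ℂ → E} {z : ℂ} (hz : ‖z‖ = 1) :
    z ^ 2 * Phi u z = ((‖dr u z‖ ^ 2 - ‖dth u z‖ ^ 2 : ℝ) : ℂ)
      - 2 * I * ((inner ℝ (dr u z) (dth u z) : ℝ) : ℂ) := by
  have e1 : dr u z = z.re • ux u z + z.im • uy u z := by
    unfold dr ux uy
    conv_lhs => rw [show (z : ℂ) = z.re • (1 : ℂ) + z.im • I by
      rw [real_smul, real_smul, mul_one]; exact (re_add_im z).symm]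
    rw [map_add, map_smul, map_smul]
    simp
  have e2 : dth u z = (-z.im) • ux u z + z.re • uy u z := by
    unfold dth ux uy
    have : I * z = (-z.im) • (1 : ℂ) + z.re • I := by
      apply Complex.ext <;> simp
    rw [this, map_add, map_smul, map_smul]
  have hn : z.re ^ 2 + z.im ^ 2 = 1 := by
    have := normSq_eq_norm_sq z
    rw [hz, normSq_apply] at this
    nlinarith
  rw [← real_inner_self_eq_norm_sq, ← real_inner_self_eq_norm_sq, e1, e2]
  unfold Phi
  have c : inner ℝ (uy u z) (ux u z) = inner ℝ (ux u z) (uy u z) := real_inner_comm _ _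
  simp only [inner_add_left, inner_add_right, inner_smul_left, inner_smul_right, c]
  set p := inner ℝ (ux u z) (ux u z)
  set q := inner ℝ (uy u z) (uy u z)
  set s := inner ℝ (ux u z) (uy u z)
  apply Complex.ext
  · simp [pow_two]
    ring
  · simp [pow_two]
    ring

theorem main (u : ℂ → E) (hu : HarmonicToSphere u) (α β a : ℝ) (c : ℂ)
    (hαβ : α ≠ 0 ∨ β ≠ 0) (hac : a ≠ 0 ∨ c ≠ 0)
    (h : ∀ z : ℂ, ‖z‖ = 1 → 0 ≤ (a + (c * z).re) *
      (α * (‖dr u z‖ ^ 2 - ‖dth u z‖ ^ 2) + β * inner ℝ (dr u z) (dth u z))) :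
    ∀ z ∈ Metric.closedBall (0 : ℂ) 1, ‖ux u z‖ = ‖uy u z‖ ∧ inner ℝ (ux u z) (uy u z) = 0 := by
  obtain ⟨hC, hN, hL⟩ := hu
  have hPhi : DiffContOnCl ℂ (Phi u) (ball 0 1) := by
    constructor
    · intro z hz
      refine (diff_Phi (hC z (ball_subset_closedBall hz)) ?_ (hL z hz)).differentiableWithinAt
      filter_upwards [isOpen_ball.mem_nhds hz] with x hx
      exact hN x (ball_subset_closedBall hx)
    · rw [closure_ball (0 : ℂ) one_ne_zero]
      intro z hz
      have hA := (contDiffAt_ux (hC z hz)).continuousAt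
      have hB := (contDiffAt_uy (hC z hz)).continuousAt
      apply ContinuousAt.continuousWithinAt
      unfold Phi
      exact (continuous_ofReal.continuousAt.comp ((hA.inner hA).sub (hB.inner hB))).sub
        (continuousAt_const.mul (continuous_ofReal.continuousAt.comp (hA.inner hB)))
  set ω : ℂ := ⟨α, β / 2⟩ with hω
  have hω0 : ω ≠ 0 := by
    intro h0
    have h1 := congrArg re h0
    have h2 := congrArg im h0
    simp [hω] at h1 h2
    rcases hαβ with h | h
    · exact h h1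
    · exact h h2
  have hz := phi_zero hPhi hω0 hac (fun z hz => by
    rw [boundary hz]
    have : (ω * (((‖dr u z‖ ^ 2 - ‖dth u z‖ ^ 2 : ℝ) : ℂ)
        - 2 * I * ((inner ℝ (dr u z) (dth u z) : ℝ) : ℂ))).re
        = α * (‖dr u z‖ ^ 2 - ‖dth u z‖ ^ 2) + β * inner ℝ (dr u z) (dth u z) := by
      simp only [hω, mul_re, sub_re, sub_im, ofReal_re, ofReal_im, mul_im, I_re, I_im]
      norm_num
      ring
    rw [this]
    exact h z hz)
  intro z hzb
  have h0 := hz z hzb
  unfold Phi at h0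
  have h1 := congrArg re h0
  have h2 := congrArg im h0
  simp only [sub_re, sub_im, ofReal_re, ofReal_im, mul_re, mul_im, I_re, I_im, zero_re,
    zero_im] at h1 h2
  norm_num at h1 h2
  constructor
  · have h3 : ‖ux u z‖ ^ 2 = ‖uy u z‖ ^ 2 := by linarith
    exact (sq_eq_sq₀ (norm_nonneg _) (norm_nonneg _)).1 h3
  · exact h2

end DiskHarmonic
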