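import Pool.Agent.Lib.MP_469a26_an.Core

/-!
# MP_469a26_an: the main theorem
-/

namespace DiskSphere

open Complex ComplexConjugate

/-- Mirror image in the plane containing the axis and the real direction. -/
noncomputable def mirror (p : ℂ × ℝ) : ℂ × ℝ := (conj p.1, p.2)

theorem mirror_mirror (p : ℂ × ℝ) : mirror (mirror p) = p := by simp [mirror]

theorem mirror_invStereo (w : ℂ) : mirror (invStereo w) = invStereo (conj w) := by
  unfold mirror invStereo
  simp only [map_div₀, map_mul, map_add, map_one, map_pow, conj_ofReal, norm_conj]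
  rw [map_ofNat]

theorem exists_angle {z : ℂ} (hz : ‖z‖ = 1) : ∃ θ : ℝ, z = exp ((θ : ℂ) * I) := by
  refine ⟨arg z, ?_⟩
  have := norm_mul_exp_arg_mul_I z
  rw [hz] at this
  simpa using this.symm

theorem datum_eq {R : ℝ} (m : ℕ) (θ : ℝ) :
    datum R m θ = ((R : ℂ) * (exp ((θ : ℂ) * I)) ^ m, Real.sqrt (1 - R ^ 2)) := by
  unfold datum
  rw [← exp_nat_mul]
  congr 3
  push_cast
  ring

/-- The mirror image of `u_m^-` in closed form. -/
noncomputable def minusForm (ρ : ℝ) (m : ℕ) (z : ℂ) : ℂ × ℝ :=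
  (2 * (ρ : ℂ) * (conj z) ^ m / ((‖z‖ : ℂ) ^ (2 * m) + (ρ : ℂ) ^ 2),
    (‖z‖ ^ (2 * m) - ρ ^ 2) / (‖z‖ ^ (2 * m) + ρ ^ 2))

theorem continuous_minusForm {ρ : ℝ} (hρ : 0 < ρ) (m : ℕ) : Continuous (minusForm ρ m) := by
  have h : ∀ z : ℂ, (0 : ℝ) < ‖z‖ ^ (2 * m) + ρ ^ 2 := fun z => by positivity
  unfold minusForm
  apply Continuous.prodMk
  · apply Continuous.div
    · exact continuous_const.mul (continuous_conj.pow m)
    · fun_prop
    · intro z
      exact_mod_cast (h z).ne'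
  · apply Continuous.div
    · fun_prop
    · fun_prop
    · intro z
      exact (h z).ne'

theorem minusForm_eq {ρ : ℝ} (hρ : 0 < ρ) (m : ℕ) {z : ℂ} (hz : z ≠ 0) :
    minusForm ρ m z = invStereo ((ρ : ℂ) * z ^ (-(m : ℤ))) := by
  have hn : (0 : ℝ) < ‖z‖ := norm_pos_iff.2 hz
  have hnorm : ‖(ρ : ℂ) * z ^ (-(m : ℤ))‖ = ρ / ‖z‖ ^ m := by
    rw [norm_mul, norm_real, Real.norm_eq_abs, abs_of_pos hρ, norm_zpow, zpow_neg, zpow_natCast,
      div_eq_mul_inv]
  unfold minusForm invStereo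
  rw [hnorm]
  have hp : (0 : ℝ) < ‖z‖ ^ m := by positivity
  have hden : (0 : ℝ) < ‖z‖ ^ (2 * m) + ρ ^ 2 := by positivity
  have hpC : ((‖z‖ : ℂ) ^ m) ≠ 0 := by exact_mod_cast hp.ne'
  have hdenC : ((‖z‖ : ℂ) ^ (2 * m) + (ρ : ℂ) ^ 2) ≠ 0 := by exact_mod_cast hden.ne'
  have hzm : z ^ m ≠ 0 := pow_ne_zero _ hz
  have hzz : z ^ m * (conj z) ^ m = (‖z‖ : ℂ) ^ (2 * m) := by
    rw [← mul_pow, mul_conj, normSq_eq_norm_sq, pow_mul]
    push_cast
    ring
  apply Prod.ext
  · simp only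
    rw [zpow_neg, zpow_natCast]
    push_cast
    have h1 : 1 + ((ρ : ℂ) / (‖z‖ : ℂ) ^ m) ^ 2
        = ((‖z‖ : ℂ) ^ (2 * m) + (ρ : ℂ) ^ 2) / (‖z‖ : ℂ) ^ (2 * m) := by
      have : (‖z‖ : ℂ) ^ (2 * m) = ((‖z‖ : ℂ) ^ m) ^ 2 := by ring
      rw [this]
      field_simp
    rw [h1]
    rw [div_eq_div_iff hdenC (div_ne_zero hdenC (by
      have : (‖z‖ : ℂ) ^ (2 * m) = ((‖z‖ : ℂ) ^ m) ^ 2 := by ring
      rw [this]; exact pow_ne_zero _ hpC))]
    rw [← hzz]
    have hcz : (conj z) ^ m ≠ 0 := pow_ne_zero _ (by simpa using hz)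
    field_simp
  · simp only
    have h2 : ‖z‖ ^ (2 * m) = (‖z‖ ^ m) ^ 2 := by ring
    rw [h2]
    field_simp

theorem main (m : ℕ) (hm : 1 ≤ m) (R : ℝ) (hR : 0 < R) (hR1 : R ≤ 1) (u : ℂ → ℂ × ℝ)
    (hS : ∀ z ∈ Metric.closedBall (0 : ℂ) 1, OnSphere (u z))
    (hc : ContinuousOn u (Metric.closedBall 0 1))
    (hb : ∀ θ : ℝ, u (exp ((θ : ℂ) * I)) = datum R m θ) :
    (HolomorphicMap u → ∀ z ∈ Metric.closedBall (0 : ℂ) 1, u z = uPlus R m z) ∧
      (AntiholomorphicMap u → ∀ z ∈ Metric.closedBall (0 : ℂ) 1, u z = uMinus R m z) := by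
  have hρ := rho_pos hR hR1
  have hbz : ∀ z : ℂ, ‖z‖ = 1 → u z = ((R : ℂ) * z ^ m, Real.sqrt (1 - R ^ 2)) := by
    intro z hz
    obtain ⟨θ, rfl⟩ := exists_angle hz
    rw [hb, datum_eq]
  constructor
  · intro hu
    apply core hρ (m : ℤ) u (uPlus R m) hS hc hu
    · exact continuous_invStereo.comp (by fun_prop)
    · intro z _
      simp [uPlus]
    · intro z hz
      rw [hbz z hz]
      have : ‖z ^ m‖ = 1 := by rw [norm_pow, hz, one_pow]
      exact (boundary_value hR hR1 this).symm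
  · intro hu
    have key : ∀ z ∈ Metric.closedBall (0 : ℂ) 1, mirror (u z) = minusForm (rho R) m z := by
      apply core hρ (-(m : ℤ)) (fun z => mirror (u z)) (minusForm (rho R) m)
      · intro z hz
        have := hS z hz
        unfold OnSphere mirror at *
        simpa using this
      · unfold mirror
        exact (continuous_conj.comp_continuousOn (continuous_fst.comp_continuousOn hc)).prodMk
          (continuous_snd.comp_continuousOn hc)
      · exact hu
      · exact continuous_minusForm hρ m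
      · intro z hz
        exact minusForm_eq hρ m hz
      · intro z hz
        have hz0 : z ≠ 0 := by
          rintro rfl
          simp at hz
        rw [hbz z hz, minusForm_eq hρ m hz0]
        have h1 : ‖z ^ (-(m : ℤ))‖ = 1 := by rw [norm_zpow, hz, one_zpow]
        rw [boundary_value hR hR1 h1]
        unfold mirror
        simp only
        congr 1
        rw [map_mul, conj_ofReal, map_pow, zpow_neg, zpow_natCast]
        congr 1
        have h2 : z * conj z = 1 := by
          rw [mul_conj, normSq_eq_norm_sq, hz]; simp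
        rw [← inv_pow]
        congr 1
        exact eq_inv_of_mul_eq_one_right h2
    intro z hz
    have h1 := congrArg mirror (key z hz)
    rw [mirror_mirror] at h1
    rw [h1]
    unfold uMinus
    split_ifs with h0
    · rw [h0]
      have hm0 : m ≠ 0 := by omega
      have : (rho R) ^ 2 ≠ 0 := by positivity
      unfold mirror minusForm
      simp [hm0]
      field_simp
    · rw [minusForm_eq hρ m h0, mirror_invStereo]
      congr 1
      rw [map_mul, conj_ofReal, map_zpow₀, zpow_neg, zpow_natCast, div_eq_mul_inv]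

end DiskSphere
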